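import Mathlib
import Pool.Agent.H24.Imm

namespace Pool.Agent.Results.MP_5ee7f3_co.NoImmersion

open Pool.Agent.H24.Imm

theorem result : ∃ (d : ℕ) (V : Type) (_ : Fintype V) (G : SimpleGraph V)
    (_ : DecidableRel G.Adj), 1 ≤ d ∧ Nonempty V ∧ G.minDegree = d - 1 ∧
    G.chromaticNumber = ((d - 1 : ℕ) : ℕ∞) ∧ ¬ HasImmersion G d :=
  ⟨10, Fin 9 × Fin 13, inferInstance, G0, inferInstance, by norm_num, inferInstance, mindeg, chi,
    G0_no⟩

end Pool.Agent.Results.MP_5ee7f3_co.NoImmersion
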